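import Mathlib
import Pool.Agent.H770.SN.Stm

/-!
# Project SN, part SN5: the polar side of the Steiner symmetrization
-/

set_option autoImplicit false

open MeasureTheory Set Function
open scoped ENNReal

namespace Pool.Agent.H126.SN

open Pool.Agent.H770.SN

theorem neg_mem_of_unc {n : ℕ} {T : Set (Fin n → ℝ)} (hT : Unc T) :
    ∀ x ∈ T, -x ∈ T := by
  classical
  intro x hx
  have h : ∀ s : Finset (Fin n), (fun j => if j ∈ s then -(x j) else x j) ∈ T := by
    intro s
    induction s using Finset.induction_on with
    | empty => simpa using hx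
    | insert a s ha ih =>
      have h1 := hT a _ ih
      have h2 : Rf a (fun j => if j ∈ s then -(x j) else x j) =
          (fun j => if j ∈ insert a s then -(x j) else x j) := by
        funext j
        unfold Rf
        by_cases hj : j = a
        · subst hj
          simp [ha]
        · rw [Function.update_of_ne hj]
          simp [Finset.mem_insert, hj]
      rw [h2] at h1
      exact h1
  have h3 := h Finset.univ
  have h4 : (fun j => if j ∈ (Finset.univ : Finset (Fin n)) then -(x j) else x j) = -x := by
    funext j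
    simp
  rw [h4] at h3
  exact h3

theorem measurableSet_pol {n : ℕ} (L : Set (Fin n → ℝ)) : MeasurableSet (Pol L) := by
  have h : Pol L = ⋂ x ∈ L, {y : Fin n → ℝ | ∑ j, x j * y j ≤ 1} := by
    ext y
    simp [Pol]
  rw [h]
  refine IsClosed.measurableSet ?_
  refine isClosed_biInter fun x _ => ?_
  refine isClosed_le ?_ continuous_const
  exact continuous_finsetSum _ fun j _ => continuous_const.mul (continuous_apply j)

theorem pside : S_Pside := by
  intro BM n i K T hK hTm hTc hTu
  obtain ⟨m, rfl⟩ : ∃ m, n = m + 1 := by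
    cases n with
    | zero => exact i.elim0
    | succ m => exact ⟨m, rfl⟩
  have mp := (volume_preserving_piFinSuccAbove (fun _ : Fin (m + 1) => ℝ) i).symm
  have mA : MeasurableSet (Pol K ∩ T) := (measurableSet_pol K).inter hTm
  have mD : MeasurableSet (Pol (St i K) ∩ T) := (measurableSet_pol _).inter hTm
  rw [← mp.measure_preimage mA.nullMeasurableSet, ← mp.measure_preimage mD.nullMeasurableSet]
  have hA := mp.measurable mA
  have hD := mp.measurable mD
  rw [Measure.volume_eq_prod, Measure.prod_apply hA, Measure.prod_apply hD]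
  refine lintegral_mono fun t => BM m _ _ (measurable_prodMk_left hA) (measurable_prodMk_left hD) ?_
  intro u hu w hw
  have es : ∀ y : Fin m → ℝ, (MeasurableEquiv.piFinSuccAbove (fun _ : Fin (m + 1) => ℝ) i).symm
      (t, y) = i.insertNth t y := fun y => rfl
  simp only [mem_preimage, es] at hu hw ⊢
  obtain ⟨hu1, hu2⟩ := hu
  obtain ⟨hw1, hw2⟩ := hw
  have hZ : ∀ j, (i.insertNth t (fun j => (u j - w j) / 2) : Fin (m + 1) → ℝ) j =
      ((i.insertNth t u : Fin (m + 1) → ℝ) j - (Rf i (i.insertNth t w : Fin (m + 1) → ℝ)) j) / 2 := by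
    intro j
    unfold Rf
    refine Fin.succAboveCases i ?_ (fun k => ?_) j
    · rw [Function.update_self, Fin.insertNth_apply_same, Fin.insertNth_apply_same,
        Fin.insertNth_apply_same]
      ring
    · rw [Function.update_of_ne (Fin.succAbove_ne i k), Fin.insertNth_apply_succAbove,
        Fin.insertNth_apply_succAbove, Fin.insertNth_apply_succAbove]
  constructor
  · intro x hx
    obtain ⟨a, b, ha, hb, hab⟩ := hx
    have h1 := hu1 _ ha
    have h2 := hw1 _ (hK _ hb)
    have h3 : ∑ j, x j * (i.insertNth t (fun j => (u j - w j) / 2) : Fin (m + 1) → ℝ) j =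
        (∑ j, update x i a j * (i.insertNth t u : Fin (m + 1) → ℝ) j +
          ∑ j, (-update x i b) j * (i.insertNth t w : Fin (m + 1) → ℝ) j) / 2 := by
      rw [← Finset.sum_add_distrib, Finset.sum_div]
      refine Finset.sum_congr rfl fun j _ => ?_
      refine Fin.succAboveCases i ?_ (fun k => ?_) j
      · simp only [Pi.neg_apply, Function.update_self, Fin.insertNth_apply_same]
        rw [hab]
        ring
      · simp only [Pi.neg_apply, Function.update_of_ne (Fin.succAbove_ne i k),
          Fin.insertNth_apply_succAbove]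
        ring
    rw [h3]
    linarith
  · have h5 : -(Rf i (i.insertNth t w : Fin (m + 1) → ℝ)) ∈ T :=
      neg_mem_of_unc hTu _ (hTu i _ hw2)
    have h6 := hTc hu2 h5 (by norm_num : (0 : ℝ) ≤ 1 / 2) (by norm_num : (0 : ℝ) ≤ 1 / 2)
      (by norm_num)
    have h7 : (i.insertNth t (fun j => (u j - w j) / 2) : Fin (m + 1) → ℝ) =
        (1 / 2 : ℝ) • (i.insertNth t u : Fin (m + 1) → ℝ) +
          (1 / 2 : ℝ) • (-(Rf i (i.insertNth t w : Fin (m + 1) → ℝ))) := by
      funext j
      rw [hZ j]
      simp only [Pi.add_apply, Pi.smul_apply, Pi.neg_apply, smul_eq_mul]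
      ring
    rw [h7]
    exact h6

end Pool.Agent.H126.SN
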